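import Pool.Agent.Helper52.NF.St2

/-! Project NF (MP_dd34a0_co), module LFC: the count. -/

set_option autoImplicit false

namespace Pool.Agent.Helper16.NF

open Pool.Agent.Helper52.NF Finset
open Classical

private theorem sh_le {A B : Type} [Fintype B] (I : A → B → Prop) (T p : Finset A) :
    sh I T p ≤ 1 := by
  unfold sh
  split_ifs <;> omega

private theorem card_P2 {A B : Type} (I : A → B → Prop) (T p : Finset A) (h : p ∈ P2 I T) :
    p.card = 2 := by
  unfold P2 at h
  have h2 := (Finset.mem_filter.1 h).1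
  unfold PP at h2
  exact (Finset.mem_powersetCard.1 (Finset.mem_filter.1 h2).1).2

theorem hLFC (hU : StLFU) (hS : StLFS) (hW : StLFW) (hP : StLFP) : StLFC := by
  intro A B _ I T hE
  obtain ⟨U2, hc, hm, hi⟩ := hU A B I T
  have hEU := hE (U2 ∪ V3 I T ∪ V4 I T) (wf I T) (hW A B I T U2 hm hi)
  have c2 : ∀ z ∈ U2, (Dz I T z).card = 2 := by
    intro z hz
    exact card_P2 I T _ (hm z hz)
  have c3 : ∀ z ∈ V3 I T, (Dz I T z).card = 3 := fun z hz => (Finset.mem_filter.1 hz).2
  have c4 : ∀ z ∈ V4 I T, 4 ≤ (Dz I T z).card := fun z hz => (Finset.mem_filter.1 hz).2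
  have hd1 : Disjoint U2 (V3 I T) := by
    rw [Finset.disjoint_left]
    intro z h1 h2
    have := c2 z h1
    have := c3 z h2
    omega
  have hd2 : Disjoint (U2 ∪ V3 I T) (V4 I T) := by
    rw [Finset.disjoint_left]
    intro z h1 h2
    have h4 := c4 z h2
    rcases Finset.mem_union.1 h1 with h | h
    · have := c2 z h
      omega
    · have := c3 z h
      omega
  rw [Finset.sum_union hd2, Finset.sum_union hd1, Finset.sum_union hd2, Finset.sum_union hd1,
    Finset.card_union_of_disjoint hd2, Finset.card_union_of_disjoint hd1] at hEU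
  have e1 : ∑ z ∈ U2, (Dz I T z).card = 2 * U2.card := by
    rw [Finset.sum_congr rfl c2, Finset.sum_const, smul_eq_mul, mul_comm]
  have e2 : ∑ z ∈ V3 I T, (Dz I T z).card = 3 * (V3 I T).card := by
    rw [Finset.sum_congr rfl c3, Finset.sum_const, smul_eq_mul, mul_comm]
  have e3 : ∑ z ∈ U2, ∑ f ∈ Dz I T z, wf I T f z = 4 * U2.card := by
    have : ∀ z ∈ U2, ∑ f ∈ Dz I T z, wf I T f z = 4 := by
      intro z hz
      have h2 := c2 z hz
      have h3 : ∀ f ∈ Dz I T z, wf I T f z = 2 := by
        intro f _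
        unfold wf
        rw [if_neg (by omega), if_neg (by omega)]
      rw [Finset.sum_congr rfl h3, Finset.sum_const, h2, smul_eq_mul]
    rw [Finset.sum_congr rfl this, Finset.sum_const, smul_eq_mul, mul_comm]
  have e4 : ∑ z ∈ V4 I T, ∑ f ∈ Dz I T z, wf I T f z = 3 * ∑ z ∈ V4 I T, (Dz I T z).card := by
    rw [Finset.mul_sum]
    refine Finset.sum_congr rfl fun z hz => ?_
    have h2 := c4 z hz
    have h3 : ∀ f ∈ Dz I T z, wf I T f z = 3 := by
      intro f _
      unfold wf
      rw [if_neg (by omega), if_pos h2]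
    rw [Finset.sum_congr rfl h3, Finset.sum_const, smul_eq_mul, mul_comm]
  have e5 : 2 * ∑ z ∈ V3 I T, ∑ f ∈ Dz I T z, wf I T f z +
      ∑ z ∈ V3 I T, ∑ p ∈ (Dz I T z).powersetCard 2, (4 - 2 * sh I T p) =
      24 * (V3 I T).card := by
    rw [Finset.mul_sum, ← Finset.sum_add_distrib]
    have : ∀ z ∈ V3 I T, 2 * ∑ f ∈ Dz I T z, wf I T f z +
        ∑ p ∈ (Dz I T z).powersetCard 2, (4 - 2 * sh I T p) = 24 := by
      intro z hz
      have h3 := c3 z hz
      rw [(hS A B I T z h3).1]
      have h4 : ∑ p ∈ (Dz I T z).powersetCard 2, (4 - 2 * sh I T p) +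
          2 * ∑ p ∈ (Dz I T z).powersetCard 2, sh I T p = 12 := by
        rw [Finset.mul_sum, ← Finset.sum_add_distrib]
        have h5 : ∀ p ∈ (Dz I T z).powersetCard 2, (4 - 2 * sh I T p) + 2 * sh I T p = 4 := by
          intro p _
          have := sh_le I T p
          omega
        rw [Finset.sum_congr rfl h5, Finset.sum_const, Finset.card_powersetCard, h3]
        rfl
      omega
    rw [Finset.sum_congr rfl this, Finset.sum_const, smul_eq_mul, mul_comm]
  have hPP := hP A B I T
  rw [← hc] at hPP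
  rw [e1, e2, e3, e4] at hEU
  omega

end Pool.Agent.Helper16.NF
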